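import Pool.Agent.helper62.VN.SpecE

/-!
# MP_07c750, project VN, row NLA (block 5): Lipschitz dependence, the main estimate
-/

set_option autoImplicit false

open scoped MatrixGroups ContDiff Topology UpperHalfPlane
open UpperHalfPlane MeasureTheory Filter Set

namespace Pool.Agent.VNE

open Pool.Agent.RS Pool.Agent.VQE

noncomputable section

/-- larger errors -/
theorem NLA_mono {K : ℝ} {η η' P k β χ : ℝ → ℝ} {a b : ℝ} (h : LSy K η P k β χ a b) (h1 : ∀ t ∈ Icc a b, η t ≤ η' t)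
    (h2 : ∀ t ∈ Icc a b, η' t ≤ 1 / (8 * K)) : LSy K η' P k β χ a b where
  bd := fun t ht => by
    obtain ⟨a1, a2, a3, a4, a5, a6⟩ := h.bd t ht
    exact ⟨a1, a2, a3, a4, a5.trans (h1 t ht), h2 t ht⟩
  d := fun t ht => by
    obtain ⟨β', χ', d1, d2, d3, d4⟩ := h.d t ht
    have h3 : 0 ≤ |β t| + |χ t| := by positivity
    exact ⟨β', χ', d1, d2, d3.trans (mul_le_mul_of_nonneg_right (h1 t ht) h3), d4.trans (mul_le_mul_of_nonneg_right (h1 t ht) h3)⟩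

/-- the derivative of `β χ` -/
theorem NLA_q (K x y x' y' P k κ : ℝ) (hK : 1 ≤ K) (hP : 1 / K ≤ P) (hk : 1 / K ≤ k)
    (h1 : |x' - P * y| ≤ 1 / (8 * K) * (|x| + |y|) + κ) (h2 : |y' - k * x| ≤ 1 / (8 * K) * (|x| + |y|) + κ) :
    1 / (4 * K) * (|x| + |y|) ^ 2 - 2 * K * κ ^ 2 ≤ x' * y + x * y' := by
  obtain ⟨a, ha⟩ : ∃ a : ℝ, a = 1 / K := ⟨_, rfl⟩
  have hK0 : 0 < K := by linarith
  have ha0 : 0 < a := by rw [ha]; positivity
  have haK : a * K = 1 := by rw [ha]; field_simp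
  have e8 : 1 / (8 * K) = a / 8 := by rw [ha]; field_simp
  have e4 : 1 / (4 * K) = a / 4 := by rw [ha]; field_simp
  rw [e8] at h1 h2
  rw [e4]
  rw [← ha] at hP hk
  have hx := abs_nonneg x
  have hy := abs_nonneg y
  have sx := sq_abs x
  have sy := sq_abs y
  have hn : (|x| + |y|) ^ 2 ≤ 2 * (x ^ 2 + y ^ 2) := by nlinarith [sq_nonneg (|x| - |y|)]
  have b1 : -((a / 8 * (|x| + |y|) + κ) * |y|) ≤ (x' - P * y) * y := by
    have h3 : |(x' - P * y) * y| ≤ (a / 8 * (|x| + |y|) + κ) * |y| := by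
      rw [abs_mul]
      exact mul_le_mul_of_nonneg_right h1 hy
    exact (neg_le_neg h3).trans (neg_abs_le _)
  have b2 : -((a / 8 * (|x| + |y|) + κ) * |x|) ≤ (y' - k * x) * x := by
    have h3 : |(y' - k * x) * x| ≤ (a / 8 * (|x| + |y|) + κ) * |x| := by
      rw [abs_mul]
      exact mul_le_mul_of_nonneg_right h2 hx
    exact (neg_le_neg h3).trans (neg_abs_le _)
  have b3 : a * y ^ 2 ≤ P * y * y := by nlinarith [mul_nonneg (sub_nonneg.2 hP) (sq_nonneg y)]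
  have b4 : a * x ^ 2 ≤ k * x * x := by nlinarith [mul_nonneg (sub_nonneg.2 hk) (sq_nonneg x)]
  have b5 : a * x ^ 2 + a * y ^ 2 - (a / 8 * (|x| + |y|) + κ) * (|x| + |y|) ≤ x' * y + x * y' := by nlinarith
  have b6 : κ * (|x| + |y|) ≤ a / 8 * (|x| + |y|) ^ 2 + 2 * K * κ ^ 2 := by
    have h3 : 0 ≤ a / 8 * ((|x| + |y|) - 4 * K * κ) ^ 2 := by positivity
    have h4 : a / 8 * ((|x| + |y|) - 4 * K * κ) ^ 2 = a / 8 * (|x| + |y|) ^ 2 - (a * K) * (κ * (|x| + |y|)) + 2 * (a * K) * K * κ ^ 2 := by ring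
    rw [h4, haK] at h3
    linarith
  have b7 : a / 2 * (|x| + |y|) ^ 2 ≤ a * x ^ 2 + a * y ^ 2 := by nlinarith
  nlinarith

/-- growth -/
theorem NLA_g (K x y x' y' P k κ : ℝ) (hK : 1 ≤ K) (hP0 : 0 ≤ P) (hP : P ≤ K) (hk0 : 0 ≤ k) (hk : k ≤ K)
    (h1 : |x' - P * y| ≤ 1 / (8 * K) * (|x| + |y|) + κ) (h2 : |y' - k * x| ≤ 1 / (8 * K) * (|x| + |y|) + κ) :
    0 ≤ 5 * K * (x ^ 2 + y ^ 2 + κ ^ 2) + (2 * x * x' + 2 * y * y') := by
  have hK0 : 0 < K := by linarith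
  have e8 : 1 / (8 * K) ≤ 1 / 8 := by
    rw [div_le_div_iff₀ (by positivity) (by norm_num)]
    linarith
  have hx := abs_nonneg x
  have hy := abs_nonneg y
  have sx := sq_abs x
  have sy := sq_abs y
  have h3 : 1 / (8 * K) * (|x| + |y|) ≤ 1 / 8 * (|x| + |y|) := mul_le_mul_of_nonneg_right e8 (by positivity)
  have b1 : |x'| ≤ K * |y| + (1 / 8 * (|x| + |y|) + κ) := by
    have h4 : x' = P * y + (x' - P * y) := by ring
    rw [h4]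
    refine (abs_add_le _ _).trans (add_le_add ?_ (h1.trans (by linarith)))
    rw [abs_mul, abs_of_nonneg hP0]
    exact mul_le_mul_of_nonneg_right hP hy
  have b2 : |y'| ≤ K * |x| + (1 / 8 * (|x| + |y|) + κ) := by
    have h4 : y' = k * x + (y' - k * x) := by ring
    rw [h4]
    refine (abs_add_le _ _).trans (add_le_add ?_ (h2.trans (by linarith)))
    rw [abs_mul, abs_of_nonneg hk0]
    exact mul_le_mul_of_nonneg_right hk hx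
  have c1 : -(|x| * (K * |y| + (1 / 8 * (|x| + |y|) + κ))) ≤ x * x' := by
    have h5 : |x * x'| ≤ |x| * (K * |y| + (1 / 8 * (|x| + |y|) + κ)) := by
      rw [abs_mul]
      exact mul_le_mul_of_nonneg_left b1 hx
    exact (neg_le_neg h5).trans (neg_abs_le _)
  have c2 : -(|y| * (K * |x| + (1 / 8 * (|x| + |y|) + κ))) ≤ y * y' := by
    have h5 : |y * y'| ≤ |y| * (K * |x| + (1 / 8 * (|x| + |y|) + κ)) := by
      rw [abs_mul]
      exact mul_le_mul_of_nonneg_left b2 hy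
    exact (neg_le_neg h5).trans (neg_abs_le _)
  have d1 : 2 * (|x| * |y|) ≤ x ^ 2 + y ^ 2 := by nlinarith [sq_nonneg (|x| - |y|)]
  have d2 : 2 * (K * (2 * (|x| * |y|))) ≤ 2 * (K * (x ^ 2 + y ^ 2)) := by
    refine mul_le_mul_of_nonneg_left (mul_le_mul_of_nonneg_left d1 hK0.le) (by norm_num)
  have d3 : (|x| + |y|) ^ 2 ≤ 2 * (x ^ 2 + y ^ 2) := by nlinarith [sq_nonneg (|x| - |y|)]
  have d4 : 2 * (κ * (|x| + |y|)) ≤ κ ^ 2 + (|x| + |y|) ^ 2 := by nlinarith [sq_nonneg (κ - (|x| + |y|))]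
  have d5 : x ^ 2 + y ^ 2 + κ ^ 2 ≤ K * (x ^ 2 + y ^ 2 + κ ^ 2) := by nlinarith [sq_nonneg x, sq_nonneg y, sq_nonneg κ]
  have d6 : 0 ≤ K * κ ^ 2 := by positivity
  nlinarith

/-- the product is at most a quarter of the square -/
theorem NLA_quarter (x y : ℝ) : x * y ≤ (|x| + |y|) ^ 2 / 4 := by
  have h3 : x * y ≤ |x| * |y| := by
    rw [← abs_mul]
    exact le_abs_self _
  nlinarith [sq_nonneg (|x| - |y|)]

/-- first part: a point in `(0, 1)` where the size is controlled by the size at `T` -/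
theorem NLA_A (K : ℝ) (hK : 1 ≤ K) (P k β χ β' χ' : ℝ → ℝ) (T κ : ℝ) (hT : 1 ≤ T)
    (hPk : ∀ t ∈ Icc (0 : ℝ) T, 1 / K ≤ P t ∧ P t ≤ K ∧ 1 / K ≤ k t ∧ k t ≤ K)
    (hd : ∀ t ∈ Icc (0 : ℝ) T, HasDerivAt β (β' t) t ∧ HasDerivAt χ (χ' t) t ∧ |β' t - P t * χ t| ≤ 1 / (8 * K) * (|β t| + |χ t|) + κ ∧
      |χ' t - k t * β t| ≤ 1 / (8 * K) * (|β t| + |χ t|) + κ)
    (h0 : β 0 * χ 0 = 0) : ∃ ξ : ℝ, 0 < ξ ∧ ξ < 1 ∧
      (|β ξ| + |χ ξ|) ^ 2 ≤ 8 * K * Real.exp 1 * (Real.exp (-(1 / K / 2 * T)) * ((|β T| + |χ T|) ^ 2 / 4) + 4 * K ^ 2 * κ ^ 2) := by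
  have hK0 : 0 < K := by linarith
  obtain ⟨a, ha⟩ : ∃ a : ℝ, a = 1 / K := ⟨_, rfl⟩
  have ha0 : 0 < a := by rw [ha]; positivity
  have ha1 : a ≤ 1 := by
    rw [ha, div_le_one hK0]
    exact hK
  have haK : a * K = 1 := by rw [ha]; field_simp
  have hT0 : 0 ≤ T := by linarith
  obtain ⟨μ, hμ⟩ : ∃ μ : ℝ, μ = a / 2 := ⟨_, rfl⟩
  have hμ0 : 0 < μ := by rw [hμ]; positivity
  rw [← ha, ← hμ]
  have hq : ∀ t ∈ Icc (0 : ℝ) T, a / 8 * (|β t| + |χ t|) ^ 2 ≤ (β' t * χ t + β t * χ' t) - μ * (β t * χ t) + 2 * K * κ ^ 2 := by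
    intro t ht
    obtain ⟨p1, p2, p3, p4⟩ := hPk t ht
    obtain ⟨d1, d2, d3, d4⟩ := hd t ht
    have h1 := NLA_q K (β t) (χ t) (β' t) (χ' t) (P t) (k t) κ hK p1 p3 d3 d4
    have e4 : 1 / (4 * K) = a / 4 := by rw [ha]; field_simp
    rw [e4] at h1
    have h3 : μ * (β t * χ t) ≤ μ * ((|β t| + |χ t|) ^ 2 / 4) := mul_le_mul_of_nonneg_left (NLA_quarter _ _) hμ0.le
    rw [hμ] at h3 ⊢
    linarith
  obtain ⟨G, hG⟩ : ∃ G : ℝ → ℝ, G = fun t => Real.exp (-(μ * t)) * (β t * χ t) + 4 * K ^ 2 * κ ^ 2 * (1 - Real.exp (-(μ * t))) := ⟨_, rfl⟩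
  obtain ⟨G', hG'⟩ : ∃ G' : ℝ → ℝ, G' = fun t => Real.exp (-(μ * t)) * ((β' t * χ t + β t * χ' t) - μ * (β t * χ t) + 2 * K * κ ^ 2) := ⟨_, rfl⟩
  have hGd : ∀ t ∈ Icc (0 : ℝ) T, HasDerivAt G (G' t) t := by
    intro t ht
    obtain ⟨d1, d2, -, -⟩ := hd t ht
    have e1 : HasDerivAt (fun s : ℝ => Real.exp (-(μ * s))) (Real.exp (-(μ * t)) * (-(μ * 1))) t :=
      (((hasDerivAt_id t).const_mul μ).neg).exp
    have e2 := (e1.mul (d1.mul d2)).add ((e1.const_sub 1).const_mul (4 * K ^ 2 * κ ^ 2))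
    rw [hG, hG']
    refine e2.congr_deriv ?_
    have h5 : 4 * K ^ 2 * μ = 2 * K := by
      rw [hμ]
      linear_combination (2 * K) * haK
    simp only [Pi.mul_apply]
    linear_combination (κ ^ 2 * Real.exp (-(μ * t))) * h5
  have hGn : ∀ t ∈ Icc (0 : ℝ) T, 0 ≤ G' t := by
    intro t ht
    rw [hG']
    refine mul_nonneg (Real.exp_pos _).le (le_trans ?_ (hq t ht))
    positivity
  have hGc : ContinuousOn G (Icc 0 T) := fun t ht => (hGd t ht).continuousAt.continuousWithinAt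
  have hmono : MonotoneOn G (Icc 0 T) := by
    refine monotoneOn_of_deriv_nonneg (convex_Icc 0 T) hGc ?_ ?_
    · intro t ht
      exact (hGd t (interior_subset ht)).differentiableAt.differentiableWithinAt
    · intro t ht
      rw [(hGd t (interior_subset ht)).deriv]
      exact hGn t (interior_subset ht)
  have h1T : (1 : ℝ) ∈ Icc (0 : ℝ) T := ⟨by norm_num, hT⟩
  have hTT : T ∈ Icc (0 : ℝ) T := ⟨hT0, le_refl T⟩
  have hG1 : G 1 ≤ G T := hmono h1T hTT hT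
  have hG0 : G 0 = 0 := by
    rw [hG]
    simp only
    rw [h0, mul_zero, mul_zero, neg_zero, Real.exp_zero, sub_self, mul_zero, add_zero]
  obtain ⟨ξ, hξ, hξ'⟩ := exists_hasDerivAt_eq_slope G G' (a := 0) (b := 1) (by norm_num) (hGc.mono (Icc_subset_Icc_right hT))
    (fun t ht => hGd t ⟨ht.1.le, ht.2.le.trans hT⟩)
  refine ⟨ξ, hξ.1, hξ.2, ?_⟩
  have hξI : ξ ∈ Icc (0 : ℝ) T := ⟨hξ.1.le, hξ.2.le.trans hT⟩
  rw [hG0, sub_zero, sub_zero, div_one] at hξ'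
  have hlow : Real.exp (-1) * (a / 8 * (|β ξ| + |χ ξ|) ^ 2) ≤ G 1 := by
    rw [← hξ', hG']
    have h5 : Real.exp (-1) ≤ Real.exp (-(μ * ξ)) := by
      refine Real.exp_le_exp.2 (neg_le_neg ?_)
      have h6 : μ ≤ 1 := by rw [hμ]; linarith
      have := mul_le_mul h6 hξ.2.le hξ.1.le (by norm_num)
      linarith
    exact mul_le_mul h5 (hq ξ hξI) (by positivity) (Real.exp_pos _).le
  have hup : G T ≤ Real.exp (-(μ * T)) * ((|β T| + |χ T|) ^ 2 / 4) + 4 * K ^ 2 * κ ^ 2 := by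
    rw [hG]
    have h5 : 4 * K ^ 2 * κ ^ 2 * (1 - Real.exp (-(μ * T))) ≤ 4 * K ^ 2 * κ ^ 2 * 1 := by
      refine mul_le_mul_of_nonneg_left ?_ (by positivity)
      have := Real.exp_pos (-(μ * T))
      linarith
    have h6 := mul_le_mul_of_nonneg_left (NLA_quarter (β T) (χ T)) (Real.exp_pos (-(μ * T))).le
    show Real.exp (-(μ * T)) * (β T * χ T) + 4 * K ^ 2 * κ ^ 2 * (1 - Real.exp (-(μ * T))) ≤ _
    linarith
  have h5 : Real.exp (-1) * (a / 8 * (|β ξ| + |χ ξ|) ^ 2) ≤ Real.exp (-(μ * T)) * ((|β T| + |χ T|) ^ 2 / 4) + 4 * K ^ 2 * κ ^ 2 :=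
    hlow.trans (hG1.trans hup)
  have h6 := mul_le_mul_of_nonneg_left h5 (by positivity : 0 ≤ 8 * K * Real.exp 1)
  have h7 : 8 * K * Real.exp 1 * (Real.exp (-1) * (a / 8 * (|β ξ| + |χ ξ|) ^ 2)) = (a * K) * (Real.exp 1 * Real.exp (-1)) * (|β ξ| + |χ ξ|) ^ 2 := by ring
  rw [h7, haK, ← Real.exp_add, add_neg_cancel, Real.exp_zero, one_mul, one_mul] at h6
  exact h6

/-- second part: growth -/
theorem NLA_B (K : ℝ) (hK : 1 ≤ K) (P k β χ β' χ' : ℝ → ℝ) (T κ : ℝ)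
    (hPk : ∀ t ∈ Icc (0 : ℝ) T, 1 / K ≤ P t ∧ P t ≤ K ∧ 1 / K ≤ k t ∧ k t ≤ K)
    (hd : ∀ t ∈ Icc (0 : ℝ) T, HasDerivAt β (β' t) t ∧ HasDerivAt χ (χ' t) t ∧ |β' t - P t * χ t| ≤ 1 / (8 * K) * (|β t| + |χ t|) + κ ∧
      |χ' t - k t * β t| ≤ 1 / (8 * K) * (|β t| + |χ t|) + κ)
    (ξ : ℝ) (h0 : 0 < ξ) (h1 : ξ < 1) (hT : 1 ≤ T) :
      (|β 0| + |χ 0|) ^ 2 ≤ 2 * (Real.exp (5 * K) * ((|β ξ| + |χ ξ|) ^ 2 + κ ^ 2)) := by
  have hK0 : 0 < K := by linarith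
  have hT0 : 0 ≤ T := by linarith
  have hξI : ξ ∈ Icc (0 : ℝ) T := ⟨h0.le, h1.le.trans hT⟩
  obtain ⟨H, hH⟩ : ∃ H : ℝ → ℝ, H = fun t => Real.exp (5 * K * t) * (β t ^ 2 + χ t ^ 2 + κ ^ 2) := ⟨_, rfl⟩
  have hHd : ∀ t ∈ Icc (0 : ℝ) T, HasDerivAt H (Real.exp (5 * K * t) * (5 * K * (β t ^ 2 + χ t ^ 2 + κ ^ 2) + (2 * β t * β' t + 2 * χ t * χ' t))) t := by
    intro t ht
    obtain ⟨d1, d2, -, -⟩ := hd t ht
    have e1 : HasDerivAt (fun s : ℝ => Real.exp (5 * K * s)) (Real.exp (5 * K * t) * (5 * K * 1)) t :=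
      ((hasDerivAt_id t).const_mul (5 * K)).exp
    have e2 := e1.mul (((d1.fun_pow 2).fun_add (d2.fun_pow 2)).add_const (κ ^ 2))
    rw [hH]
    refine e2.congr_deriv ?_
    push_cast
    ring
  have hm : MonotoneOn H (Icc 0 T) := by
    refine monotoneOn_of_deriv_nonneg (convex_Icc 0 T) (fun t ht => (hHd t ht).continuousAt.continuousWithinAt) ?_ ?_
    · intro t ht
      exact (hHd t (interior_subset ht)).differentiableAt.differentiableWithinAt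
    · intro t ht
      rw [(hHd t (interior_subset ht)).deriv]
      obtain ⟨p1, p2, p3, p4⟩ := hPk t (interior_subset ht)
      obtain ⟨d1, d2, d3, d4⟩ := hd t (interior_subset ht)
      have hP0 : 0 ≤ P t := le_trans (by positivity) p1
      have hk0 : 0 ≤ k t := le_trans (by positivity) p3
      exact mul_nonneg (Real.exp_pos _).le (NLA_g K (β t) (χ t) (β' t) (χ' t) (P t) (k t) κ hK hP0 p2 hk0 p4 d3 d4)
  have hHm : H 0 ≤ H ξ := hm ⟨le_refl 0, hT0⟩ hξI h0.le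
  rw [hH] at hHm
  simp only [mul_zero, Real.exp_zero, one_mul] at hHm
  have hH2 : Real.exp (5 * K * ξ) * (β ξ ^ 2 + χ ξ ^ 2 + κ ^ 2) ≤ Real.exp (5 * K) * ((|β ξ| + |χ ξ|) ^ 2 + κ ^ 2) := by
    refine mul_le_mul ?_ ?_ (by positivity) (Real.exp_pos _).le
    · refine Real.exp_le_exp.2 ?_
      have := mul_le_mul_of_nonneg_left h1.le (by positivity : 0 ≤ 5 * K)
      linarith
    · nlinarith [sq_abs (β ξ), sq_abs (χ ξ), mul_nonneg (abs_nonneg (β ξ)) (abs_nonneg (χ ξ))]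
  have hn0 : (|β 0| + |χ 0|) ^ 2 ≤ 2 * (β 0 ^ 2 + χ 0 ^ 2 + κ ^ 2) := by
    nlinarith [sq_abs (β 0), sq_abs (χ 0), sq_nonneg (|β 0| - |χ 0|), sq_nonneg κ]
  linarith

/-- third part: numbers -/
theorem NLA_C (e f K n0 nξ M κ E : ℝ) (he1 : 1 ≤ e) (he5 : 1 ≤ f) (hK : 1 ≤ K) (hn0 : 0 ≤ n0) (hM : 0 ≤ M) (hκ : 0 ≤ κ) (hE : 0 ≤ E)
    (h1 : nξ ^ 2 ≤ 8 * K * e * (E ^ 2 * (M ^ 2 / 4) + 4 * K ^ 2 * κ ^ 2))
    (h2 : n0 ^ 2 ≤ 2 * (f * (nξ ^ 2 + κ ^ 2))) :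
    n0 ≤ 2 * f * (32 * K ^ 3 * e + 1) * (E * M + κ) := by
  obtain ⟨C, hC⟩ : ∃ C : ℝ, C = 2 * f * (32 * K ^ 3 * e + 1) := ⟨_, rfl⟩
  rw [← hC]
  have hK3 : K ≤ K ^ 3 := le_self_pow₀ hK (by norm_num)
  have hB1 : 1 ≤ 32 * K ^ 3 * e + 1 := by
    have : 0 ≤ 32 * K ^ 3 * e := by positivity
    linarith
  have hC1 : 1 ≤ C := by
    rw [hC]
    nlinarith
  have s1 : n0 ^ 2 ≤ 2 * (f * ((8 * K * e * (E ^ 2 * (M ^ 2 / 4) + 4 * K ^ 2 * κ ^ 2)) + κ ^ 2)) := by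
    have h5 := mul_le_mul_of_nonneg_left (add_le_add h1 (le_refl (κ ^ 2))) (by linarith : 0 ≤ f)
    linarith
  have s2 : 2 * (f * ((8 * K * e * (E ^ 2 * (M ^ 2 / 4) + 4 * K ^ 2 * κ ^ 2)) + κ ^ 2)) = 2 * f * (2 * K * e) * (E ^ 2 * M ^ 2) + C * κ ^ 2 := by
    rw [hC]
    ring
  have s3 : 2 * f * (2 * K * e) ≤ C := by
    rw [hC]
    refine mul_le_mul_of_nonneg_left ?_ (by positivity)
    have h5 : 2 * K * e ≤ 2 * K ^ 3 * e := by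
      have := mul_le_mul_of_nonneg_right hK3 (by linarith : 0 ≤ e)
      linarith
    have h6 : 0 ≤ K ^ 3 * e := by positivity
    linarith
  have s4 := mul_le_mul_of_nonneg_right s3 (by positivity : 0 ≤ E ^ 2 * M ^ 2)
  have s5 : n0 ^ 2 ≤ C * (E ^ 2 * M ^ 2 + κ ^ 2) := by linarith
  have s6 : n0 ^ 2 ≤ (C * (E * M + κ)) ^ 2 := by
    refine s5.trans ?_
    have h5 : 0 ≤ E * M := by positivity
    have h6 : E ^ 2 * M ^ 2 + κ ^ 2 ≤ (E * M + κ) ^ 2 := by nlinarith [mul_nonneg h5 hκ]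
    have h7 : C ≤ C ^ 2 := by nlinarith
    calc C * (E ^ 2 * M ^ 2 + κ ^ 2) ≤ C ^ 2 * (E * M + κ) ^ 2 := mul_le_mul h7 h6 (by positivity) (by positivity)
      _ = (C * (E * M + κ)) ^ 2 := by ring
  have h8 : 0 ≤ C * (E * M + κ) := by positivity
  exact (sq_le_sq₀ hn0 h8).1 s6

/-- **the pure estimate** -/
theorem NLA_pure (K : ℝ) (hK : 1 ≤ K) : ∃ C μ : ℝ, 1 ≤ C ∧ 0 < μ ∧ ∀ (P k β χ β' χ' : ℝ → ℝ) (T κ : ℝ), 1 ≤ T → 0 ≤ κ →
    (∀ t ∈ Icc (0 : ℝ) T, 1 / K ≤ P t ∧ P t ≤ K ∧ 1 / K ≤ k t ∧ k t ≤ K) →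
    (∀ t ∈ Icc (0 : ℝ) T, HasDerivAt β (β' t) t ∧ HasDerivAt χ (χ' t) t ∧ |β' t - P t * χ t| ≤ 1 / (8 * K) * (|β t| + |χ t|) + κ ∧
      |χ' t - k t * β t| ≤ 1 / (8 * K) * (|β t| + |χ t|) + κ) →
    β 0 * χ 0 = 0 → |β 0| + |χ 0| ≤ C * (Real.exp (-(μ * T)) * (|β T| + |χ T|) + κ) := by
  have hK0 : 0 < K := by linarith
  have he1 : 1 ≤ Real.exp 1 := Real.one_le_exp (by norm_num)
  have he5 : 1 ≤ Real.exp (5 * K) := Real.one_le_exp (by positivity)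
  have hC1 : 1 ≤ 2 * Real.exp (5 * K) * (32 * K ^ 3 * Real.exp 1 + 1) := by
    have : 0 ≤ 32 * K ^ 3 * Real.exp 1 := by positivity
    nlinarith
  refine ⟨_, 1 / K / 4, hC1, by positivity, ?_⟩
  intro P k β χ β' χ' T κ hT hκ hPk hd h0
  obtain ⟨ξ, hξ0, hξ1, hξ⟩ := NLA_A K hK P k β χ β' χ' T κ hT hPk hd h0
  have hB := NLA_B K hK P k β χ β' χ' T κ hPk hd ξ hξ0 hξ1 hT
  have hexp : Real.exp (-(1 / K / 2 * T)) = Real.exp (-(1 / K / 4 * T)) ^ 2 := by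
    rw [← Real.exp_nat_mul]
    refine congrArg Real.exp ?_
    push_cast
    ring
  rw [hexp] at hξ
  exact NLA_C _ _ K _ _ _ κ _ he1 he5 hK (by positivity) (by positivity) hκ (Real.exp_pos _).le hξ hB

/-- bounds of the fields -/
theorem NLA_F {K : ℝ} (hK : 1 ≤ K) {X : Fd} (hX : HF K X) (h0 : ∀ g, FJ X g 0 0 = 0 ∧ FW X g 0 0 = 0) (g : SL(2, ℝ)) (J W : ℝ)
    (h : |J| + |W| ≤ 1 / K) : |FJ X g J W - X.p g ^ 2 * W| ≤ K * (|J| + |W|) * (|J| + |W|) ∧ |FW X g J W - X.κ g * J| ≤ K * (|J| + |W|) * (|J| + |W|) ∧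
      |FJ X g J W| ≤ 2 * K ^ 2 * (|J| + |W|) ∧ |FW X g J W| ≤ 2 * K ^ 2 * (|J| + |W|) := by
  have hK0 : 0 < K := by linarith
  obtain ⟨f1, f2⟩ := hX.f1 g J W 0 0 h (by rw [abs_zero, add_zero]; positivity)
  rw [(h0 g).1, abs_zero, add_zero, add_zero, sub_zero, sub_zero, sub_zero] at f1
  rw [(h0 g).2, abs_zero, add_zero, add_zero, sub_zero, sub_zero, sub_zero] at f2
  obtain ⟨p1, p2⟩ := hX.pb g
  obtain ⟨k1, k2⟩ := hX.kb g
  have hp0 : 0 ≤ X.p g := le_trans (by positivity) p1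
  have hk0 : 0 ≤ X.κ g := le_trans (by positivity) k1
  have hn : 0 ≤ |J| + |W| := by positivity
  have hJ : |J| ≤ |J| + |W| := le_add_of_nonneg_right (abs_nonneg W)
  have hW : |W| ≤ |J| + |W| := le_add_of_nonneg_left (abs_nonneg J)
  have hKn : K * (|J| + |W|) ≤ 1 := by
    have := mul_le_mul_of_nonneg_left h hK0.le
    rw [mul_one_div_cancel hK0.ne'] at this
    exact this
  have hq : K * (|J| + |W|) * (|J| + |W|) ≤ |J| + |W| := by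
    have := mul_le_mul_of_nonneg_right hKn hn
    linarith
  have hK2 : 1 ≤ K ^ 2 := one_le_pow₀ hK
  have hKK : K ≤ K ^ 2 := le_self_pow₀ hK (by norm_num)
  have hp2 : X.p g ^ 2 ≤ K ^ 2 := pow_le_pow_left₀ hp0 p2 2
  have m1 : |X.p g ^ 2 * W| ≤ K ^ 2 * (|J| + |W|) := by
    rw [abs_mul, abs_of_nonneg (by positivity : 0 ≤ X.p g ^ 2)]
    exact mul_le_mul hp2 hW (abs_nonneg _) (by positivity)
  have m2 : |X.κ g * J| ≤ K ^ 2 * (|J| + |W|) := by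
    rw [abs_mul, abs_of_nonneg hk0]
    exact mul_le_mul (k2.trans hKK) hJ (abs_nonneg _) (by positivity)
  have m3 : |J| + |W| ≤ K ^ 2 * (|J| + |W|) := by nlinarith
  refine ⟨f1, f2, ?_, ?_⟩
  · have h4 : FJ X g J W = (FJ X g J W - X.p g ^ 2 * W) + X.p g ^ 2 * W := by ring
    rw [h4]
    refine (abs_add_le _ _).trans ?_
    linarith
  · have h4 : FW X g J W = (FW X g J W - X.κ g * J) + X.κ g * J := by ring
    rw [h4]
    refine (abs_add_le _ _).trans ?_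
    linarith

/-- change of the base point and of the speed -/
theorem NLA_loc {K C1 : ℝ} (hK : 1 ≤ K) (hC1 : 1 ≤ C1) {X : Fd} (hX : HF K X) (h0 : ∀ g, FJ X g 0 0 = 0 ∧ FW X g 0 0 = 0) (g E : SL(2, ℝ)) (σ J W n : ℝ)
    (h : |J| + |W| ≤ 1 / K) (hσ : |σ - 1| ≤ C1 * n) (hE : nm E ≤ C1 * n) (hn : 0 ≤ n) :
    |σ * FJ X (g * E) J W - FJ X g J W| ≤ 3 * K ^ 2 * C1 * (n * (|J| + |W|)) ∧
    |σ * FW X (g * E) J W - FW X g J W| ≤ 3 * K ^ 2 * C1 * (n * (|J| + |W|)) := by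
  have hK0 : 0 < K := by linarith
  obtain ⟨-, -, a1, a2⟩ := NLA_F hK hX h0 (g * E) J W h
  obtain ⟨b1, b2⟩ := hX.f2 g E J W h
  have hm : 0 ≤ |J| + |W| := by positivity
  have hKK : K ≤ K ^ 2 := le_self_pow₀ hK (by norm_num)
  have hnm : K * nm E * (|J| + |W|) ≤ K ^ 2 * (C1 * n) * (|J| + |W|) := by
    refine mul_le_mul_of_nonneg_right ?_ hm
    calc K * nm E ≤ K * (C1 * n) := mul_le_mul_of_nonneg_left hE hK0.le
      _ ≤ K ^ 2 * (C1 * n) := mul_le_mul_of_nonneg_right hKK (by positivity)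
  constructor
  · have h4 : σ * FJ X (g * E) J W - FJ X g J W = (σ - 1) * FJ X (g * E) J W + (FJ X (g * E) J W - FJ X g J W) := by ring
    rw [h4]
    refine (abs_add_le _ _).trans ?_
    rw [abs_mul]
    have h5 := mul_le_mul hσ a1 (abs_nonneg _) (by positivity)
    linarith
  · have h4 : σ * FW X (g * E) J W - FW X g J W = (σ - 1) * FW X (g * E) J W + (FW X (g * E) J W - FW X g J W) := by ring
    rw [h4]
    refine (abs_add_le _ _).trans ?_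
    rw [abs_mul]
    have h5 := mul_le_mul hσ a2 (abs_nonneg _) (by positivity)
    linarith

/-- the clock -/
theorem NLA_clock {T : ℝ} (hT : 0 ≤ T) (s : ℝ → ℝ) (hs : ContinuousOn s (Icc 0 T)) (h0 : ∀ t ∈ Icc (0 : ℝ) T, 0 ≤ s t) :
    ∃ τ : ℝ → ℝ, τ 0 = 0 ∧ ∀ t ∈ Icc (0 : ℝ) T, 0 ≤ τ t ∧ HasDerivAt τ (s t) t ∧ τ t = ∫ u in (0 : ℝ)..t, s u := by
  obtain ⟨σ, hσ⟩ : ∃ σ : ℝ → ℝ, σ = fun u => s (max 0 (min u T)) := ⟨_, rfl⟩
  have hpr : ∀ u : ℝ, max 0 (min u T) ∈ Icc (0 : ℝ) T := fun u => ⟨le_max_left _ _, max_le hT (min_le_right _ _)⟩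
  have hσc : Continuous σ := by
    rw [hσ]
    exact hs.comp_continuous (by fun_prop) hpr
  have hσe : ∀ t ∈ Icc (0 : ℝ) T, σ t = s t := by
    intro t ht
    rw [hσ]
    show s (max 0 (min t T)) = s t
    rw [min_eq_left ht.2, max_eq_right ht.1]
  refine ⟨fun t => ∫ u in (0 : ℝ)..t, σ u, intervalIntegral.integral_same, fun t ht => ⟨?_, ?_, ?_⟩⟩
  · refine intervalIntegral.integral_nonneg ht.1 fun u hu => ?_
    rw [hσe u ⟨hu.1, hu.2.trans ht.2⟩]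
    exact h0 u ⟨hu.1, hu.2.trans ht.2⟩
  · rw [← hσe t ht]
    exact (hσc.integral_hasStrictDerivAt 0 t).hasDerivAt
  · refine intervalIntegral.integral_congr fun u hu => ?_
    rw [uIcc_of_le ht.1] at hu
    exact hσe u ⟨hu.1, hu.2.trans ht.2⟩

/-- the second stable pair with the clock of the first orbit -/
theorem NLA_shift {K C1 ε T : ℝ} (hK : 1 ≤ K) (hC1 : 1 ≤ C1) {X : Fd} (hX : HF K X) (h0 : ∀ g, FJ X g 0 0 = 0 ∧ FW X g 0 0 = 0)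
    (h1 : ∀ (g : SL(2, ℝ)) (J W : ℝ), |J| + |W| ≤ 1 / C1 → nm (pj X g J W) ≤ C1 * (|J| + |W|) ∧ |sj X g J W - 1| ≤ C1 * (|J| + |W|))
    (hε1 : ε ≤ 1 / K) (hε2 : C1 * ε ≤ 1 / 2) {g : SL(2, ℝ)} {Jh Wh J2 W2 : ℝ → ℝ} (hT : 0 ≤ T) (hp : PR ε X g T Jh Wh)
    (hsj : ContinuousOn (fun t => sj X (X.f t g) (Jh t) (Wh t)) (Icc 0 T))
    (hsy : ∀ t ∈ Icc (0 : ℝ) T, X.f (∫ s in (0 : ℝ)..t, sj X (X.f s g) (Jh s) (Wh s)) (g * pj X g (Jh 0) (Wh 0)) = X.f t g * pj X (X.f t g) (Jh t) (Wh t))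
    (h2 : SMN ε X (g * pj X g (Jh 0) (Wh 0)) J2 W2) : ∃ β χ β' χ' : ℝ → ℝ, β 0 = J2 0 ∧ χ 0 = W2 0 ∧ ∀ t ∈ Icc (0 : ℝ) T,
      HasDerivAt β (β' t) t ∧ HasDerivAt χ (χ' t) t ∧
      |β' t - FJ X (X.f t g) (β t) (χ t)| ≤ 3 * K ^ 2 * C1 * ((|Jh t| + |Wh t|) * (|β t| + |χ t|)) ∧
      |χ' t - FW X (X.f t g) (β t) (χ t)| ≤ 3 * K ^ 2 * C1 * ((|Jh t| + |Wh t|) * (|β t| + |χ t|)) ∧
      ∃ s : ℝ, 0 ≤ s ∧ β t = J2 s ∧ χ t = W2 s := by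
  have hC0 : 0 < C1 := by linarith
  have hε3 : ε ≤ 1 / C1 := by
    rw [le_div_iff₀ hC0, mul_comm]
    linarith
  have hσ : ∀ t ∈ Icc (0 : ℝ) T, |sj X (X.f t g) (Jh t) (Wh t) - 1| ≤ C1 * (|Jh t| + |Wh t|) := fun t ht => (h1 _ _ _ ((hp.bd t ht).trans hε3)).2
  have hσ0 : ∀ t ∈ Icc (0 : ℝ) T, 0 ≤ sj X (X.f t g) (Jh t) (Wh t) := by
    intro t ht
    have h3 := (abs_le.1 (hσ t ht)).1
    have h4 : C1 * (|Jh t| + |Wh t|) ≤ C1 * ε := mul_le_mul_of_nonneg_left (hp.bd t ht) hC0.le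
    linarith
  obtain ⟨τ, hτ0, hτ⟩ := NLA_clock hT _ hsj hσ0
  refine ⟨fun t => J2 (τ t), fun t => W2 (τ t),
    fun t => FJ X (X.f (τ t) (g * pj X g (Jh 0) (Wh 0))) (J2 (τ t)) (W2 (τ t)) * sj X (X.f t g) (Jh t) (Wh t),
    fun t => FW X (X.f (τ t) (g * pj X g (Jh 0) (Wh 0))) (J2 (τ t)) (W2 (τ t)) * sj X (X.f t g) (Jh t) (Wh t), ?_, ?_, ?_⟩
  · show J2 (τ 0) = J2 0
    rw [hτ0]
  · show W2 (τ 0) = W2 0
    rw [hτ0]
  intro t ht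
  obtain ⟨t1, t2, t3⟩ := hτ t ht
  have hI : τ t ∈ Icc (0 : ℝ) (τ t) := ⟨t1, le_refl _⟩
  have dJ := (h2.pr (τ t)).dJ (τ t) hI
  have dW := (h2.pr (τ t)).dW (τ t) hI
  have hb : |J2 (τ t)| + |W2 (τ t)| ≤ 1 / K := ((h2.pr (τ t)).bd (τ t) hI).trans hε1
  have he : X.f (τ t) (g * pj X g (Jh 0) (Wh 0)) = X.f t g * pj X (X.f t g) (Jh t) (Wh t) := by
    rw [t3]
    exact hsy t ht
  have hl := NLA_loc hK hC1 hX h0 (X.f t g) (pj X (X.f t g) (Jh t) (Wh t)) (sj X (X.f t g) (Jh t) (Wh t)) (J2 (τ t)) (W2 (τ t)) (|Jh t| + |Wh t|)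
    hb (hσ t ht) (h1 _ _ _ ((hp.bd t ht).trans hε3)).1 (by positivity)
  refine ⟨dJ.comp t t2, dW.comp t t2, ?_, ?_, τ t, t1, rfl, rfl⟩
  · show |FJ X (X.f (τ t) (g * pj X g (Jh 0) (Wh 0))) (J2 (τ t)) (W2 (τ t)) * sj X (X.f t g) (Jh t) (Wh t) - FJ X (X.f t g) (J2 (τ t)) (W2 (τ t))| ≤ _
    rw [he, mul_comm (FJ _ _ _ _)]
    exact hl.1
  · show |FW X (X.f (τ t) (g * pj X g (Jh 0) (Wh 0))) (J2 (τ t)) (W2 (τ t)) * sj X (X.f t g) (Jh t) (Wh t) - FW X (X.f t g) (J2 (τ t)) (W2 (τ t))| ≤ _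
    rw [he, mul_comm (FW _ _ _ _)]
    exact hl.2

/-- the ranges of `p²`, `κ` -/
theorem NLA_PK {K : ℝ} (hK : 1 ≤ K) {X : Fd} (hX : HF K X) (g : SL(2, ℝ)) :
    1 / K ^ 2 ≤ X.p g ^ 2 ∧ X.p g ^ 2 ≤ K ^ 2 ∧ 1 / K ^ 2 ≤ X.κ g ∧ X.κ g ≤ K ^ 2 := by
  have hK0 : 0 < K := by linarith
  obtain ⟨p1, p2⟩ := hX.pb g
  obtain ⟨k1, k2⟩ := hX.kb g
  have hp0 : 0 ≤ X.p g := le_trans (by positivity) p1
  have hKK : K ≤ K ^ 2 := le_self_pow₀ hK (by norm_num)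
  refine ⟨?_, pow_le_pow_left₀ hp0 p2 2, le_trans ?_ k1, k2.trans hKK⟩
  · have h1 : 1 / K ^ 2 = (1 / K) ^ 2 := by rw [div_pow, one_pow]
    rw [h1]
    exact pow_le_pow_left₀ (by positivity) p1 2
  · exact one_div_le_one_div_of_le hK0 hKK

/-- the shifted pair is an approximate solution -/
theorem NLA_LS {K K' C5 ε T : ℝ} (hK : 1 ≤ K) (hK' : K + C5 ≤ K') (hC5 : 0 ≤ C5) {X : Fd} (hX : HF K X) (h0 : ∀ g, FJ X g 0 0 = 0 ∧ FW X g 0 0 = 0)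
    (hε1 : ε ≤ 1 / K) (hε4 : K' * (2 * ε) ≤ 1 / (8 * K ^ 2)) {g : SL(2, ℝ)} {Jh Wh β χ β' χ' : ℝ → ℝ}
    (hh : ∀ t ∈ Icc (0 : ℝ) T, |Jh t| + |Wh t| ≤ ε) (hb : ∀ t ∈ Icc (0 : ℝ) T, |β t| + |χ t| ≤ ε)
    (hd : ∀ t ∈ Icc (0 : ℝ) T, HasDerivAt β (β' t) t ∧ HasDerivAt χ (χ' t) t ∧
      |β' t - FJ X (X.f t g) (β t) (χ t)| ≤ C5 * ((|Jh t| + |Wh t|) * (|β t| + |χ t|)) ∧
      |χ' t - FW X (X.f t g) (β t) (χ t)| ≤ C5 * ((|Jh t| + |Wh t|) * (|β t| + |χ t|))) :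
    LSy (K ^ 2) (fun t => K' * (|β t| + |χ t| + (|Jh t| + |Wh t|))) (fun t => X.p (X.f t g) ^ 2) (fun t => X.κ (X.f t g)) β χ 0 T := by
  have hK0 : 0 < K := by linarith
  have hK'0 : 0 ≤ K' := by linarith
  refine ⟨fun t ht => ?_, fun t ht => ?_⟩
  · obtain ⟨a1, a2, a3, a4⟩ := NLA_PK hK hX (X.f t g)
    refine ⟨a1, a2, a3, a4, by positivity, le_trans ?_ hε4⟩
    refine mul_le_mul_of_nonneg_left ?_ hK'0
    have := hh t ht
    have := hb t ht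
    linarith
  · obtain ⟨d1, d2, d3, d4⟩ := hd t ht
    obtain ⟨e1, e2, -, -⟩ := NLA_F hK hX h0 (X.f t g) (β t) (χ t) ((hb t ht).trans hε1)
    have hm : 0 ≤ |β t| + |χ t| := by positivity
    have hn : 0 ≤ |Jh t| + |Wh t| := by positivity
    have key : C5 * ((|Jh t| + |Wh t|) * (|β t| + |χ t|)) + K * (|β t| + |χ t|) * (|β t| + |χ t|) ≤
        K' * (|β t| + |χ t| + (|Jh t| + |Wh t|)) * (|β t| + |χ t|) := by
      have h5 : C5 * (|Jh t| + |Wh t|) + K * (|β t| + |χ t|) ≤ K' * (|β t| + |χ t| + (|Jh t| + |Wh t|)) := by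
        have h6 : C5 * (|Jh t| + |Wh t|) ≤ K' * (|Jh t| + |Wh t|) := mul_le_mul_of_nonneg_right (by linarith) hn
        have h7 : K * (|β t| + |χ t|) ≤ K' * (|β t| + |χ t|) := mul_le_mul_of_nonneg_right (by linarith) hm
        linarith
      have h8 := mul_le_mul_of_nonneg_right h5 hm
      linarith
    refine ⟨β' t, χ' t, d1, d2, ?_, ?_⟩
    · have h9 : β' t - X.p (X.f t g) ^ 2 * χ t = (β' t - FJ X (X.f t g) (β t) (χ t)) + (FJ X (X.f t g) (β t) (χ t) - X.p (X.f t g) ^ 2 * χ t) := by ring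
      show |β' t - X.p (X.f t g) ^ 2 * χ t| ≤ _
      rw [h9]
      exact (abs_add_le _ _).trans ((add_le_add d3 e1).trans key)
    · have h9 : χ' t - X.κ (X.f t g) * β t = (χ' t - FW X (X.f t g) (β t) (χ t)) + (FW X (X.f t g) (β t) (χ t) - X.κ (X.f t g) * β t) := by ring
      show |χ' t - X.κ (X.f t g) * β t| ≤ _
      rw [h9]
      exact (abs_add_le _ _).trans ((add_le_add d4 e2).trans key)

/-- the pure estimate for the difference -/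
theorem NLA_diff {K C5 ε T κ CU μU : ℝ} (hK : 1 ≤ K)
    (hpure : ∀ (P k β χ β' χ' : ℝ → ℝ) (T κ : ℝ), 1 ≤ T → 0 ≤ κ →
      (∀ t ∈ Icc (0 : ℝ) T, 1 / K ^ 2 ≤ P t ∧ P t ≤ K ^ 2 ∧ 1 / K ^ 2 ≤ k t ∧ k t ≤ K ^ 2) →
      (∀ t ∈ Icc (0 : ℝ) T, HasDerivAt β (β' t) t ∧ HasDerivAt χ (χ' t) t ∧ |β' t - P t * χ t| ≤ 1 / (8 * K ^ 2) * (|β t| + |χ t|) + κ ∧
        |χ' t - k t * β t| ≤ 1 / (8 * K ^ 2) * (|β t| + |χ t|) + κ) →
      β 0 * χ 0 = 0 → |β 0| + |χ 0| ≤ CU * (Real.exp (-(μU * T)) * (|β T| + |χ T|) + κ))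
    {X : Fd} (hX : HF K X) (hε1 : ε ≤ 1 / K) (hε4 : K * (2 * ε) ≤ 1 / (8 * K ^ 2)) (hT : 1 ≤ T) (hκ : 0 ≤ κ)
    {g : SL(2, ℝ)} {Jh Wh J1 W1 β χ β' χ' : ℝ → ℝ} (hp1 : PR ε X g T J1 W1) (hb : ∀ t ∈ Icc (0 : ℝ) T, |β t| + |χ t| ≤ ε)
    (hd : ∀ t ∈ Icc (0 : ℝ) T, HasDerivAt β (β' t) t ∧ HasDerivAt χ (χ' t) t ∧
      |β' t - FJ X (X.f t g) (β t) (χ t)| ≤ C5 * ((|Jh t| + |Wh t|) * (|β t| + |χ t|)) ∧
      |χ' t - FW X (X.f t g) (β t) (χ t)| ≤ C5 * ((|Jh t| + |Wh t|) * (|β t| + |χ t|)))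
    (hk : ∀ t ∈ Icc (0 : ℝ) T, C5 * ((|Jh t| + |Wh t|) * (|β t| + |χ t|)) ≤ κ) (h00 : J1 0 = β 0) :
    |W1 0 - χ 0| ≤ CU * (Real.exp (-(μU * T)) * (|J1 T - β T| + |W1 T - χ T|) + κ) := by
  have hK0 : 0 < K := by linarith
  have key := hpure (fun t => X.p (X.f t g) ^ 2) (fun t => X.κ (X.f t g)) (fun t => J1 t - β t) (fun t => W1 t - χ t)
    (fun t => FJ X (X.f t g) (J1 t) (W1 t) - β' t) (fun t => FW X (X.f t g) (J1 t) (W1 t) - χ' t) T κ hT hκ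
    (fun t _ => NLA_PK hK hX (X.f t g)) (fun t ht => ?_) ?_
  · have key' : |J1 0 - β 0| + |W1 0 - χ 0| ≤ CU * (Real.exp (-(μU * T)) * (|J1 T - β T| + |W1 T - χ T|) + κ) := key
    have := abs_nonneg (J1 0 - β 0)
    linarith
  · obtain ⟨d1, d2, d3, d4⟩ := hd t ht
    have e1 := hp1.dJ t ht
    have e2 := hp1.dW t ht
    obtain ⟨f1, f2⟩ := hX.f1 (X.f t g) (J1 t) (W1 t) (β t) (χ t) ((hp1.bd t ht).trans hε1) ((hb t ht).trans hε1)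
    have hs : K * (|J1 t| + |W1 t| + |β t| + |χ t|) ≤ 1 / (8 * K ^ 2) := by
      refine le_trans (mul_le_mul_of_nonneg_left ?_ hK0.le) hε4
      have := hp1.bd t ht
      have := hb t ht
      linarith
    have hm : 0 ≤ |J1 t - β t| + |W1 t - χ t| := by positivity
    have hs2 := mul_le_mul_of_nonneg_right hs hm
    refine ⟨e1.sub d1, e2.sub d2, ?_, ?_⟩
    · show |FJ X (X.f t g) (J1 t) (W1 t) - β' t - X.p (X.f t g) ^ 2 * (W1 t - χ t)| ≤ 1 / (8 * K ^ 2) * (|J1 t - β t| + |W1 t - χ t|) + κ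
      have h9 : FJ X (X.f t g) (J1 t) (W1 t) - β' t - X.p (X.f t g) ^ 2 * (W1 t - χ t) =
          (FJ X (X.f t g) (J1 t) (W1 t) - FJ X (X.f t g) (β t) (χ t) - X.p (X.f t g) ^ 2 * (W1 t - χ t)) - (β' t - FJ X (X.f t g) (β t) (χ t)) := by ring
      rw [h9]
      exact (abs_sub _ _).trans (add_le_add (f1.trans hs2) (d3.trans (hk t ht)))
    · show |FW X (X.f t g) (J1 t) (W1 t) - χ' t - X.κ (X.f t g) * (J1 t - β t)| ≤ 1 / (8 * K ^ 2) * (|J1 t - β t| + |W1 t - χ t|) + κ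
      have h9 : FW X (X.f t g) (J1 t) (W1 t) - χ' t - X.κ (X.f t g) * (J1 t - β t) =
          (FW X (X.f t g) (J1 t) (W1 t) - FW X (X.f t g) (β t) (χ t) - X.κ (X.f t g) * (J1 t - β t)) - (χ' t - FW X (X.f t g) (β t) (χ t)) := by ring
      rw [h9]
      exact (abs_sub _ _).trans (add_le_add (f2.trans hs2) (d4.trans (hk t ht)))
  · show (J1 0 - β 0) * (W1 0 - χ 0) = 0
    rw [h00, sub_self, zero_mul]

/-- the final numbers -/
theorem NLA_fin (CU CS CW C5 j h e w hT v1 v2 D κ : ℝ) (hCU : 1 ≤ CU) (hCS : 1 ≤ CS) (hCW : 1 ≤ CW) (hC5 : 0 ≤ C5) (hj : 0 ≤ j) (hh : 0 ≤ h)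
    (he0 : 0 ≤ e) (he1 : e ≤ 1) (hhT0 : 0 ≤ hT) (hhT1 : hT ≤ 1) (hD : D ≤ v1 + v2)
    (hv1 : v1 ≤ CS * ((1 + CS) * j)) (hv2 : v2 ≤ CS * ((1 + CS) * j)) (hw1 : v1 * hT ≤ CW * ((1 + CS) * j * h)) (hw2 : v2 * hT ≤ CW * ((1 + CS) * j * h))
    (hκ : κ = C5 * (CW * ((1 + CS) * j * h))) (hw : w ≤ CU * (e * D + κ)) :
    w ≤ CU * ((1 + CS) * (2 * CS + (2 + C5) * CW)) * j * (h + e) ∧ w * hT ≤ CU * ((1 + CS) * (2 * CS + (2 + C5) * CW)) * j * h := by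
  have hjh : 0 ≤ (1 + CS) * j * h := by positivity
  have hje : 0 ≤ (1 + CS) * j * e := by positivity
  have a1 : 0 ≤ CW * ((1 + CS) * j * h) := by positivity
  have a3 : 0 ≤ CS * ((1 + CS) * j * e) := by positivity
  have a4 : 0 ≤ CS * ((1 + CS) * j * h) := by positivity
  have a5 : 0 ≤ CW * ((1 + CS) * j * e) := by positivity
  have a6 : 0 ≤ C5 * (CW * ((1 + CS) * j * e)) := by positivity
  have a7 : 0 ≤ C5 * (CW * ((1 + CS) * j * h)) := by positivity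
  constructor
  · refine hw.trans ?_
    have h1 : e * D ≤ e * (2 * (CS * ((1 + CS) * j))) := mul_le_mul_of_nonneg_left (by linarith) he0
    have h2 : e * D + κ ≤ (1 + CS) * (2 * CS + (2 + C5) * CW) * j * (h + e) := by
      rw [hκ]
      linarith
    have h3 := mul_le_mul_of_nonneg_left h2 (by linarith : 0 ≤ CU)
    linarith
  · have h1 : w * hT ≤ CU * (e * D + κ) * hT := mul_le_mul_of_nonneg_right hw hhT0
    refine h1.trans ?_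
    have h2 : D * hT ≤ v1 * hT + v2 * hT := by
      have := mul_le_mul_of_nonneg_right hD hhT0
      linarith
    have h3 : e * (D * hT) ≤ 2 * (CW * ((1 + CS) * j * h)) := by
      have h4 : D * hT ≤ 2 * (CW * ((1 + CS) * j * h)) := by linarith
      have h5 : e * (D * hT) ≤ e * (2 * (CW * ((1 + CS) * j * h))) := mul_le_mul_of_nonneg_left h4 he0
      have h6 : e * (2 * (CW * ((1 + CS) * j * h))) ≤ 1 * (2 * (CW * ((1 + CS) * j * h))) := mul_le_mul_of_nonneg_right he1 (by linarith)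
      linarith
    have h4 : κ * hT ≤ κ := by
      have hκ0 : 0 ≤ κ := by
        rw [hκ]
        exact a7
      exact mul_le_of_le_one_right hκ0 hhT1
    have h5 : (e * D + κ) * hT ≤ (1 + CS) * (2 * CS + (2 + C5) * CW) * j * h := by
      rw [hκ] at h4 ⊢
      linarith
    have h6 := mul_le_mul_of_nonneg_left h5 (by linarith : 0 ≤ CU)
    linarith

theorem NLA_proof (h1 : NCH_stmt) (h2 : NPL_stmt) (h3 : NDC_stmt) (h4 : NWR_stmt) (h5 : NST_stmt) (h6 : NSY_stmt) : NLA_stmt := by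
  intro K hK
  have hK0 : 0 < K := by linarith
  have hK2 : 1 ≤ K ^ 2 := one_le_pow₀ hK
  have hKK : K ≤ K ^ 2 := le_self_pow₀ hK (by norm_num)
  obtain ⟨C1, hC1, hch⟩ := h1 K hK
  obtain ⟨CP, εP, hCP, hεP, hpl⟩ := h2 K hK
  obtain ⟨CS, μS, εS, hCS, hμS, hεS, hst⟩ := h5 K hK
  obtain ⟨εY, hεY, hsy⟩ := h6 K hK
  obtain ⟨C5, hC5⟩ : ∃ C5 : ℝ, C5 = 3 * K ^ 2 * C1 := ⟨_, rfl⟩
  have hC50 : 0 ≤ C5 := by rw [hC5]; positivity
  have hC5C : C1 ≤ C5 := by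
    rw [hC5]
    nlinarith
  obtain ⟨K', hK'⟩ : ∃ K' : ℝ, K' = K + C5 + CP := ⟨_, rfl⟩
  have hK'1 : 1 ≤ K' := by linarith
  have hK'0 : 0 < K' := by linarith
  obtain ⟨CW, hCW, hwr⟩ := h4 (K ^ 2) K' (1 / CS) hK2 hK'1 (by positivity)
  obtain ⟨CU, μU, hCU, hμU, hpure⟩ := NLA_pure (K ^ 2) hK2
  obtain ⟨εK, hεK⟩ : ∃ εK : ℝ, εK = 1 / (16 * K ^ 2 * K') := ⟨_, rfl⟩
  have hεK0 : 0 < εK := by rw [hεK]; positivity
  obtain ⟨ε, hε⟩ : ∃ ε : ℝ, ε = min (min εP εS) (min εY εK) := ⟨_, rfl⟩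
  have hε0 : 0 < ε := by
    rw [hε]
    exact lt_min (lt_min hεP hεS) (lt_min hεY hεK0)
  have hεP' : ε ≤ εP := by rw [hε]; exact (min_le_left _ _).trans (min_le_left _ _)
  have hεS' : ε ≤ εS := by rw [hε]; exact (min_le_left _ _).trans (min_le_right _ _)
  have hεY' : ε ≤ εY := by rw [hε]; exact (min_le_right _ _).trans (min_le_left _ _)
  have hεK' : ε ≤ εK := by rw [hε]; exact (min_le_right _ _).trans (min_le_right _ _)
  have hb0 : 16 * K ^ 2 * K' * ε ≤ 1 := by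
    have h7 := mul_le_mul_of_nonneg_left hεK' (by positivity : 0 ≤ 16 * K ^ 2 * K')
    rw [hεK, mul_one_div_cancel (by positivity)] at h7
    exact h7
  have hε4 : K' * (2 * ε) ≤ 1 / (8 * K ^ 2) := by
    rw [le_div_iff₀ (by positivity)]
    linarith
  have hK'K : K ≤ K' := by linarith
  have hε4' : K * (2 * ε) ≤ 1 / (8 * K ^ 2) := (mul_le_mul_of_nonneg_right hK'K (by positivity)).trans hε4
  have hKε : K' * ε ≤ 1 / 16 := by
    have h7 : 1 * (K' * ε) ≤ K ^ 2 * (K' * ε) := mul_le_mul_of_nonneg_right hK2 (by positivity)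
    linarith
  have hε1 : ε ≤ 1 / K := by
    rw [le_div_iff₀ hK0, mul_comm]
    have h7 : K * ε ≤ K' * ε := mul_le_mul_of_nonneg_right hK'K hε0.le
    linarith
  have hε2 : C1 * ε ≤ 1 / 2 := by
    have h7 : C1 * ε ≤ K' * ε := mul_le_mul_of_nonneg_right (by linarith) hε0.le
    linarith
  have hεone : ε ≤ 1 := hε1.trans (by rw [div_le_one hK0]; exact hK)
  refine ⟨CU * ((1 + CS) * (2 * CS + (2 + C5) * CW)), μU, ε, ?_, hμU, hε0, ?_⟩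
  · have h8 : 0 ≤ (2 + C5) * CW := by positivity
    have h7 : 1 * 1 ≤ (1 + CS) * (2 * CS + (2 + C5) * CW) := mul_le_mul (by linarith) (by linarith) (by norm_num) (by linarith)
    have h9 : 1 * (1 * 1) ≤ CU * ((1 + CS) * (2 * CS + (2 + C5) * CW)) := mul_le_mul hCU h7 (by norm_num) (by linarith)
    linarith
  intro X g T Jh Wh J1 W1 J2 W2 hX hT hp hs1 hs2 hj
  have hT0 : 0 ≤ T := by linarith
  obtain ⟨-, -, hc0, hc1, -, -, -, -, -, hcc⟩ := hch X hX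
  have hC0 : 0 < C1 := by linarith
  have hε3 : ε ≤ 1 / C1 := by
    rw [le_div_iff₀ hC0, mul_comm]
    linarith
  have hsj : ContinuousOn (fun t => sj X (X.f t g) (Jh t) (Wh t)) (Icc 0 T) :=
    (hcc T g Jh Wh (fun t ht => (hp.dJ t ht).continuousAt.continuousWithinAt) (fun t ht => (hp.dW t ht).continuousAt.continuousWithinAt)
      (fun t ht => (hp.bd t ht).trans hε3)).1
  have hpY : PR εY X g T Jh Wh := ⟨hp.dJ, hp.dW, fun t ht => (hp.bd t ht).trans hεY'⟩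
  obtain ⟨β, χ, β', χ', hβ0, hχ0, hd⟩ := NLA_shift hK hC1 hX hc0 (fun g J W hJW => ⟨(hc1 g J W hJW).1, (hc1 g J W hJW).2.2.1⟩) hε1 hε2 hT0 hp hsj
    (fun t ht => hsy X g T Jh Wh hX hpY t ht) hs2
  rw [← hC5] at hd
  have hbs : ∀ t ∈ Icc (0 : ℝ) T, ∃ s : ℝ, 0 ≤ s ∧ β t = J2 s ∧ χ t = W2 s := fun t ht => (hd t ht).2.2.2.2
  have hd' : ∀ t ∈ Icc (0 : ℝ) T, HasDerivAt β (β' t) t ∧ HasDerivAt χ (χ' t) t ∧
      |β' t - FJ X (X.f t g) (β t) (χ t)| ≤ C5 * ((|Jh t| + |Wh t|) * (|β t| + |χ t|)) ∧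
      |χ' t - FW X (X.f t g) (β t) (χ t)| ≤ C5 * ((|Jh t| + |Wh t|) * (|β t| + |χ t|)) := fun t ht =>
    ⟨(hd t ht).1, (hd t ht).2.1, (hd t ht).2.2.1, (hd t ht).2.2.2.1⟩
  have hb2 : ∀ s : ℝ, 0 ≤ s → |J2 s| + |W2 s| ≤ ε := fun s hs => (hs2.pr s).bd s ⟨hs, le_refl _⟩
  have hb : ∀ t ∈ Icc (0 : ℝ) T, |β t| + |χ t| ≤ ε := by
    intro t ht
    obtain ⟨s, s0, e1, e2⟩ := hbs t ht
    rw [e1, e2]
    exact hb2 s s0
  have hst1 := (hst ε X g J1 W1 hε0 hεS' hX hs1).1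
  have hst2 := (hst ε X _ J2 W2 hε0 hεS' hX hs2).1
  have hp1 := hs1.pr T
  -- the approximate solutions
  have hIh : ∀ t ∈ Icc (0 : ℝ) T, |Jh t| + |Wh t| ≤ ε := hp.bd
  have lsv1 := (hpl ε T X g J1 W1 Jh Wh hεP' hX hp1 hp).1
  have lsvh := (hpl ε T X g Jh Wh J1 W1 hεP' hX hp hp1).1
  have hCPK : CP ≤ K' := by linarith
  have A1 : ∀ t ∈ Icc (0 : ℝ) T, (|J1 t| + |W1 t|) * (|Jh t| + |Wh t|) ≤ CW * ((|J1 0| + |W1 0|) * (|Jh 0| + |Wh 0|)) := by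
    refine hwr _ _ J1 W1 Jh Wh T hT0 (NLA_mono lsv1 (fun t ht => ?_) (fun t ht => ?_)) (NLA_mono lsvh (fun t ht => ?_) (fun t ht => ?_)) (fun t ht => ?_)
    · have n1 : 0 ≤ |J1 t| + |W1 t| := by positivity
      have n2 : 0 ≤ |Jh t| + |Wh t| := by positivity
      have := mul_le_mul_of_nonneg_right hCPK n1
      have := mul_nonneg hK'0.le n2
      show CP * (|J1 t| + |W1 t|) ≤ K' * (|J1 t| + |W1 t| + (|Jh t| + |Wh t|))
      linarith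
    · refine le_trans (mul_le_mul_of_nonneg_left ?_ hK'0.le) hε4
      have := hp1.bd t ht
      have := hIh t ht
      linarith
    · have n1 : 0 ≤ |J1 t| + |W1 t| := by positivity
      have n2 : 0 ≤ |Jh t| + |Wh t| := by positivity
      have := mul_le_mul_of_nonneg_right hCPK n2
      have := mul_nonneg hK'0.le n1
      show CP * (|Jh t| + |Wh t|) ≤ K' * (|J1 t| + |W1 t| + (|Jh t| + |Wh t|))
      linarith
    · refine le_trans (mul_le_mul_of_nonneg_left ?_ hK'0.le) hε4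
      have := hp1.bd t ht
      have := hIh t ht
      linarith
    · have h7 := (hst1 t ht.1).2.2.2
      rw [one_div, inv_mul_le_iff₀ (by linarith)]
      linarith
  have A2 : ∀ t ∈ Icc (0 : ℝ) T, (|β t| + |χ t|) * (|Jh t| + |Wh t|) ≤ CW * ((|β 0| + |χ 0|) * (|Jh 0| + |Wh 0|)) := by
    refine hwr _ _ β χ Jh Wh T hT0 (NLA_LS hK (by linarith) hC50 hX hc0 hε1 hε4 hIh hb hd') (NLA_mono lsvh (fun t ht => ?_) (fun t ht => ?_)) (fun t ht => ?_)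
    · have n1 : 0 ≤ |β t| + |χ t| := by positivity
      have n2 : 0 ≤ |Jh t| + |Wh t| := by positivity
      have := mul_le_mul_of_nonneg_right hCPK n2
      have := mul_nonneg hK'0.le n1
      show CP * (|Jh t| + |Wh t|) ≤ K' * (|β t| + |χ t| + (|Jh t| + |Wh t|))
      linarith
    · refine le_trans (mul_le_mul_of_nonneg_left ?_ hK'0.le) hε4
      have := hb t ht
      have := hIh t ht
      linarith
    · obtain ⟨s, s0, e1, e2⟩ := hbs t ht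
      rw [e1, e2]
      have h7 := (hst2 s s0).2.2.2
      rw [one_div, inv_mul_le_iff₀ (by linarith)]
      linarith
  have hT2 : T ∈ Icc (0 : ℝ) T := ⟨hT0, le_refl T⟩
  obtain ⟨j, hjd⟩ : ∃ j : ℝ, j = |J1 0| := ⟨_, rfl⟩
  obtain ⟨h, hhd⟩ : ∃ h : ℝ, h = |Jh 0| + |Wh 0| := ⟨_, rfl⟩
  have hj0 : 0 ≤ j := by rw [hjd]; positivity
  have hh0 : 0 ≤ h := by rw [hhd]; positivity
  have n1 : |J1 0| + |W1 0| ≤ (1 + CS) * j := by
    have := (hst1 0 le_rfl).2.1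
    rw [← hjd] at this ⊢
    linarith
  have n2 : |J2 0| + |W2 0| ≤ (1 + CS) * j := by
    have := (hst2 0 le_rfl).2.1
    rw [← hj, ← hjd] at this
    rw [← hj, ← hjd]
    linarith
  have hdec : ∀ (a b c : ℝ), 0 ≤ c → a ≤ CS * Real.exp (-(μS * b)) * c → 0 ≤ b → c ≤ (1 + CS) * j → a ≤ CS * ((1 + CS) * j) := by
    intro a b c hc ha hb hcj
    refine ha.trans ?_
    have h7 : Real.exp (-(μS * b)) ≤ 1 := by
      rw [Real.exp_le_one_iff]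
      have := mul_nonneg hμS.le hb
      linarith
    have h8 : CS * Real.exp (-(μS * b)) ≤ CS * 1 := mul_le_mul_of_nonneg_left h7 (by linarith)
    calc CS * Real.exp (-(μS * b)) * c ≤ CS * 1 * c := mul_le_mul_of_nonneg_right h8 hc
      _ = CS * c := by rw [mul_one]
      _ ≤ CS * ((1 + CS) * j) := mul_le_mul_of_nonneg_left hcj (by linarith)
  have hv1 : |J1 T| + |W1 T| ≤ CS * ((1 + CS) * j) := hdec _ T _ (by positivity) (hst1 T hT0).1 hT0 n1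
  have hv2 : |β T| + |χ T| ≤ CS * ((1 + CS) * j) := by
    obtain ⟨s, s0, e1, e2⟩ := hbs T hT2
    rw [e1, e2]
    exact hdec _ s _ (by positivity) (hst2 s s0).1 s0 n2
  have hw1 : ∀ t ∈ Icc (0 : ℝ) T, (|J1 t| + |W1 t|) * (|Jh t| + |Wh t|) ≤ CW * ((1 + CS) * j * h) := by
    intro t ht
    refine (A1 t ht).trans (mul_le_mul_of_nonneg_left ?_ (by linarith))
    rw [← hhd]
    exact mul_le_mul_of_nonneg_right n1 hh0
  have hw2 : ∀ t ∈ Icc (0 : ℝ) T, (|β t| + |χ t|) * (|Jh t| + |Wh t|) ≤ CW * ((1 + CS) * j * h) := by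
    intro t ht
    refine (A2 t ht).trans (mul_le_mul_of_nonneg_left ?_ (by linarith))
    rw [← hhd, hβ0, hχ0]
    exact mul_le_mul_of_nonneg_right n2 hh0
  have hκ0 : 0 ≤ C5 * (CW * ((1 + CS) * j * h)) := by positivity
  have hdiff := NLA_diff hK hpure hX hε1 hε4' hT hκ0 hp1 hb hd' (fun t ht => by
    refine mul_le_mul_of_nonneg_left ?_ hC50
    rw [mul_comm]
    exact hw2 t ht) (hj.trans hβ0.symm)
  rw [hχ0] at hdiff
  have hD : |J1 T - β T| + |W1 T - χ T| ≤ (|J1 T| + |W1 T|) + (|β T| + |χ T|) := by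
    have := abs_sub (J1 T) (β T)
    have := abs_sub (W1 T) (χ T)
    linarith
  have he1 : Real.exp (-(μU * T)) ≤ 1 := by
    rw [Real.exp_le_one_iff]
    have := mul_nonneg hμU.le hT0
    linarith
  have hfin := NLA_fin CU CS CW C5 j h (Real.exp (-(μU * T))) |W1 0 - W2 0| (|Jh T| + |Wh T|) (|J1 T| + |W1 T|) (|β T| + |χ T|)
    (|J1 T - β T| + |W1 T - χ T|) _ hCU hCS hCW hC50 hj0 hh0 (Real.exp_pos _).le he1 (by positivity) ((hIh T hT2).trans hεone) hD hv1 hv2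
    (hw1 T hT2) (hw2 T hT2) rfl hdiff
  rw [hjd, hhd] at hfin
  exact hfin

end

end Pool.Agent.VNE
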